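import Pool.Agent.L7h2.ME.Stm

/-!
# Project ME, part RES: few pairs are resonant
-/

set_option autoImplicit false

namespace Pool.Agent.L7h56.ME

open Finset Filter Topology Pool.Agent.L7h2.ME

theorem card_le_of_diff (S : Finset ℕ) {L : ℝ} (hL : 0 ≤ L)
    (h : ∀ m ∈ S, ∀ m' ∈ S, (m' : ℝ) - m ≤ L) : (#S : ℝ) ≤ L + 1 := by
  rcases S.eq_empty_or_nonempty with rfl | hne
  · simp only [card_empty, Nat.cast_zero]
    linarith
  · have hsub : S ⊆ Icc (S.min' hne) (S.min' hne + ⌊L⌋₊) := by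
      intro m hm
      rw [mem_Icc]
      refine ⟨S.min'_le m hm, ?_⟩
      have h1 := h _ (S.min'_mem hne) m hm
      have h2 : S.min' hne ≤ m := S.min'_le m hm
      have h3 : ((m - S.min' hne : ℕ) : ℝ) ≤ L := by
        rw [Nat.cast_sub h2]
        exact h1
      have h4 : m - S.min' hne ≤ ⌊L⌋₊ := Nat.le_floor h3
      omega
    have h5 := card_le_card hsub
    rw [Nat.card_Icc] at h5
    have h7 : #S ≤ ⌊L⌋₊ + 1 := by omega
    calc (#S : ℝ) ≤ ((⌊L⌋₊ + 1 : ℕ) : ℝ) := by exact_mod_cast h7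
      _ = (⌊L⌋₊ : ℝ) + 1 := by push_cast; ring
      _ ≤ L + 1 := by
        have := Nat.floor_le hL
        linarith

theorem cnt_fib {e : ℕ} (he : 1 ≤ e) {T : ℝ} (hT : 0 ≤ T) {d' : ℕ} (hd' : 1 ≤ d') {l' : ℤ}
    (hl' : l' ≠ 0) (A : ℝ) (S : Finset ℕ) (h : ∀ n ∈ S, |A + l' * (n : ℝ) ^ e / d'| < T) :
    (#S : ℝ) ≤ 2 * T * d' + 1 := by
  have hinj : Function.Injective (fun n : ℕ => n ^ e) := Nat.pow_left_injective (by omega)
  rw [← card_image_of_injective S hinj]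
  apply card_le_of_diff _ (by positivity)
  intro m hm m' hm'
  obtain ⟨n, hn, rfl⟩ := mem_image.1 hm
  obtain ⟨n', hn', rfl⟩ := mem_image.1 hm'
  have h1 := h n hn
  have h2 := h n' hn'
  have hd0 : (0 : ℝ) < d' := by exact_mod_cast hd'
  have h3 : |(l' : ℝ) * ((n' : ℝ) ^ e - (n : ℝ) ^ e) / d'| < 2 * T := by
    have e1 : (l' : ℝ) * ((n' : ℝ) ^ e - (n : ℝ) ^ e) / d' =
        (A + l' * (n' : ℝ) ^ e / d') - (A + l' * (n : ℝ) ^ e / d') := by ring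
    rw [e1]
    have := abs_sub (A + l' * (n' : ℝ) ^ e / d') (A + l' * (n : ℝ) ^ e / d')
    linarith
  rw [abs_div, abs_mul, abs_of_pos hd0, div_lt_iff₀ hd0] at h3
  have h4 : (1 : ℝ) ≤ |(l' : ℝ)| := by exact_mod_cast Int.one_le_abs hl'
  have h5 : |(n' : ℝ) ^ e - (n : ℝ) ^ e| ≤ |(l' : ℝ)| * |(n' : ℝ) ^ e - (n : ℝ) ^ e| :=
    le_mul_of_one_le_left (abs_nonneg _) h4
  push_cast
  linarith [le_abs_self ((n' : ℝ) ^ e - (n : ℝ) ^ e)]

open Classical in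
theorem s_RES : S_RES := by
  intro e he
  have hlim : Tendsto (fun N : ℕ => (N : ℝ) ^ (27 / 100 : ℝ)) atTop atTop :=
    (tendsto_rpow_atTop (by norm_num)).comp tendsto_natCast_atTop_atTop
  obtain ⟨N₀, hN₀⟩ := eventually_atTop.1 (hlim.eventually_ge_atTop 12)
  refine ⟨max N₀ 1, fun N hN => ?_⟩
  have hN1 : 1 ≤ N := (le_max_right _ _).trans hN
  have hNr : (1 : ℝ) ≤ N := by exact_mod_cast hN1
  have hNp : (0 : ℝ) < N := by linarith
  have h12 := hN₀ N ((le_max_left _ _).trans hN)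
  set T : ℝ := (N : ℝ) ^ (13 / 100 : ℝ) with hTdef
  have hT : 0 ≤ T := by positivity
  set D : ℕ := ⌊(N : ℝ) ^ (1 / 50 : ℝ)⌋₊ with hD
  have hDr : (D : ℝ) ≤ (N : ℝ) ^ (1 / 50 : ℝ) := Nat.floor_le (by positivity)
  -- the index set
  let I : Finset (((ℕ × ℕ) × (ℤ × ℤ)) × ℕ) :=
    ((Icc 1 D ×ˢ Icc 1 D) ×ˢ (Ioo (-(D : ℤ)) D ×ˢ (Ioo (-(D : ℤ)) D).erase 0)) ×ˢ Ioc N (2 * N)
  let S : ((ℕ × ℕ) × (ℤ × ℤ)) × ℕ → Finset ℕ := fun q => (Ioc N (2 * N)).filter fun n' =>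
    |(q.1.2.1 : ℝ) * (q.2 : ℝ) ^ e / q.1.1.1 + (q.1.2.2 : ℝ) * (n' : ℝ) ^ e / q.1.1.2| < T
  have hsub : (Ioc N (2 * N) ×ˢ Ioc N (2 * N)).filter (fun p => Res e N p.1 p.2) ⊆
      I.biUnion fun q => (S q).image fun n' => (q.2, n') := by
    rintro ⟨n, n'⟩ hp
    rw [mem_filter, mem_product] at hp
    obtain ⟨⟨hn, hn'⟩, d, d', hd1, hd1', hd, hd', l, l', hl, hl', h0, hlt⟩ := hp
    have hdD : d ≤ D := Nat.le_floor hd
    have hdD' : d' ≤ D := Nat.le_floor hd'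
    have hl'0 : l' ≠ 0 := by
      rintro rfl
      have hl0 : l ≠ 0 := by
        rcases h0 with h | h
        · exact h
        · exact absurd rfl h
      simp only [Int.cast_zero, zero_mul, zero_div, add_zero] at hlt
      have hnN : N < n := (mem_Ioc.1 hn).1
      have h4 : (1 : ℝ) ≤ |(l : ℝ)| := by exact_mod_cast Int.one_le_abs hl0
      have hd0 : (0 : ℝ) < d := by exact_mod_cast hd1
      rw [abs_div, abs_mul, abs_of_pos hd0, div_lt_iff₀ hd0,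
        abs_of_nonneg (show (0 : ℝ) ≤ (n : ℝ) ^ e by positivity), ← hTdef] at hlt
      have h5 : (N : ℝ) ≤ (n : ℝ) ^ e := by
        have h6 : (N : ℝ) ≤ n := by exact_mod_cast hnN.le
        have h7 : (1 : ℝ) ≤ n := hNr.trans h6
        calc (N : ℝ) ≤ n := h6
          _ = (n : ℝ) ^ 1 := (pow_one _).symm
          _ ≤ (n : ℝ) ^ e := pow_le_pow_right₀ h7 he
      have h6 : (n : ℝ) ^ e ≤ |(l : ℝ)| * (n : ℝ) ^ e := le_mul_of_one_le_left (by positivity) h4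
      have h7 : T * d ≤ (N : ℝ) := by
        calc T * d ≤ (N : ℝ) ^ (13 / 100 : ℝ) * (N : ℝ) ^ (1 / 50 : ℝ) :=
              mul_le_mul_of_nonneg_left hd hT
          _ = (N : ℝ) ^ (15 / 100 : ℝ) := by
              rw [← Real.rpow_add hNp]; norm_num
          _ ≤ (N : ℝ) ^ (1 : ℝ) := Real.rpow_le_rpow_of_exponent_le hNr (by norm_num)
          _ = N := Real.rpow_one _
      linarith
    rw [mem_biUnion]
    refine ⟨(((d, d'), (l, l')), n), ?_, ?_⟩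
    · simp only [I, mem_product, mem_Icc, mem_Ioo, mem_erase]
      rw [abs_lt] at hl hl'
      refine ⟨⟨⟨⟨hd1, hdD⟩, hd1', hdD'⟩, ⟨?_, ?_⟩, hl'0, ?_, ?_⟩, hn⟩ <;> omega
    · rw [mem_image]
      exact ⟨n', mem_filter.2 ⟨hn', hlt⟩, rfl⟩
  have hI : (#I : ℝ) ≤ 4 * (N : ℝ) ^ (8 / 100 : ℝ) * N := by
    have h1 : #I ≤ (D * D) * ((2 * D) * (2 * D)) * N := by
      simp only [I, card_product, Nat.card_Icc, Nat.card_Ioc, Int.card_Ioo]
      have h2 : ((D : ℤ) - -(D : ℤ) - 1).toNat ≤ 2 * D := by omega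
      have h3 : #((Ioo (-(D : ℤ)) D).erase 0) ≤ 2 * D := by
        refine (card_le_card (erase_subset _ _)).trans ?_
        rw [Int.card_Ioo]
        exact h2
      have h4 : D + 1 - 1 = D := by omega
      have h5 : 2 * N - N = N := by omega
      rw [h4, h5]
      gcongr
    calc (#I : ℝ) ≤ (((D * D) * ((2 * D) * (2 * D)) * N : ℕ) : ℝ) := by exact_mod_cast h1
      _ = 4 * ((D : ℝ) ^ 4) * N := by push_cast; ring
      _ ≤ 4 * (((N : ℝ) ^ (1 / 50 : ℝ)) ^ 4) * N := by gcongr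
      _ = 4 * (N : ℝ) ^ (8 / 100 : ℝ) * N := by
        rw [← Real.rpow_natCast, ← Real.rpow_mul hNp.le]
        norm_num
  have hS : ∀ q ∈ I, (#((S q).image fun n' => (q.2, n')) : ℝ) ≤ 3 * (N : ℝ) ^ (15 / 100 : ℝ) := by
    intro q hq
    simp only [I, mem_product, mem_Icc, mem_Ioo, mem_erase] at hq
    obtain ⟨⟨⟨⟨hd1, hdD⟩, hd1', hdD'⟩, ⟨hl1, hl2⟩, hl'0, hl3, hl4⟩, hn⟩ := hq
    have h1 : (#((S q).image fun n' => (q.2, n')) : ℝ) ≤ #(S q) := by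
      exact_mod_cast card_image_le
    have h2 := cnt_fib he hT hd1' hl'0 ((q.1.2.1 : ℝ) * (q.2 : ℝ) ^ e / q.1.1.1) (S q)
      fun n' hn' => (mem_filter.1 hn').2
    have h3 : T * (q.1.1.2 : ℝ) ≤ (N : ℝ) ^ (15 / 100 : ℝ) := by
      have h4 : ((q.1.1.2 : ℕ) : ℝ) ≤ (N : ℝ) ^ (1 / 50 : ℝ) :=
        le_trans (by exact_mod_cast hdD') hDr
      calc T * (q.1.1.2 : ℝ) ≤ (N : ℝ) ^ (13 / 100 : ℝ) * (N : ℝ) ^ (1 / 50 : ℝ) :=
            mul_le_mul_of_nonneg_left h4 hT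
        _ = (N : ℝ) ^ (15 / 100 : ℝ) := by
            rw [← Real.rpow_add hNp]; norm_num
    have h4 : (1 : ℝ) ≤ (N : ℝ) ^ (15 / 100 : ℝ) := Real.one_le_rpow hNr (by norm_num)
    linarith
  have hcard : (#((Ioc N (2 * N) ×ˢ Ioc N (2 * N)).filter (fun p => Res e N p.1 p.2)) : ℝ) ≤
      ∑ q ∈ I, (#((S q).image fun n' => (q.2, n')) : ℝ) := by
    have h1 := (card_le_card hsub).trans card_biUnion_le
    exact_mod_cast h1
  refine hcard.trans ((sum_le_card_nsmul _ _ _ hS).trans ?_)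
  rw [nsmul_eq_mul]
  calc (#I : ℝ) * (3 * (N : ℝ) ^ (15 / 100 : ℝ))
      ≤ (4 * (N : ℝ) ^ (8 / 100 : ℝ) * N) * (3 * (N : ℝ) ^ (15 / 100 : ℝ)) := by gcongr
    _ = 12 * ((N : ℝ) ^ (8 / 100 : ℝ) * (N : ℝ) ^ (1 : ℝ) * (N : ℝ) ^ (15 / 100 : ℝ)) := by
        rw [Real.rpow_one]; ring
    _ = 12 * (N : ℝ) ^ (123 / 100 : ℝ) := by
        rw [← Real.rpow_add hNp, ← Real.rpow_add hNp]; norm_num
    _ ≤ (N : ℝ) ^ (27 / 100 : ℝ) * (N : ℝ) ^ (123 / 100 : ℝ) := by gcongr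
    _ = (N : ℝ) ^ (3 / 2 : ℝ) := by
        rw [← Real.rpow_add hNp]; norm_num

end Pool.Agent.L7h56.ME
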