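import Pool.Agent.L7h2.ME.Stm

/-!
# Project ME, part ZO: a zero-one law from Lebesgue's density theorem
-/

set_option autoImplicit false

namespace Pool.Agent.L7h56.ME

open Finset MeasureTheory Filter Topology Pool.Agent.L7h2.ME

theorem s_ZO : S_ZO := by
  intro k E hE U hU c hc h
  set F : Set (Fin k → ℝ) := ⋂ n : ℕ, ⋃ N : ℕ, ⋃ _ : n ≤ N, E N with hF
  have hG : ∀ n : ℕ, MeasurableSet (⋃ N : ℕ, ⋃ _ : n ≤ N, E N) := fun n =>
    MeasurableSet.iUnion fun N => MeasurableSet.iUnion fun _ => hE N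
  have hFm : MeasurableSet F := MeasurableSet.iInter hG
  have hFiff : ∀ α, (∃ᶠ N in atTop, α ∈ E N) ↔ α ∈ F := by
    intro α
    rw [hF, frequently_atTop]
    simp only [Set.mem_iInter, Set.mem_iUnion, exists_prop]
  have hbox : ∀ a b : Fin k → ℝ, (∀ i, a i < b i) → Set.Icc a b ⊆ U →
      ENNReal.ofReal c * volume (Set.Icc a b) ≤ volume (Set.Icc a b ∩ F) := by
    intro a b hab hsub
    obtain ⟨N₀, hN⟩ := h a b hab hsub
    have hvol : volume (Set.Icc a b) = ENNReal.ofReal (∏ i, (b i - a i)) := by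
      rw [Real.volume_Icc_pi, ENNReal.ofReal_prod_of_nonneg fun i _ => sub_nonneg.2 (hab i).le]
    have hfin : ∀ s : Set (Fin k → ℝ), s ⊆ Set.Icc a b → volume s ≠ ⊤ := fun s hs =>
      ((measure_mono hs).trans_lt isCompact_Icc.measure_lt_top).ne
    have h1 : ∀ n : ℕ, ENNReal.ofReal c * volume (Set.Icc a b) ≤
        volume (Set.Icc a b ∩ ⋃ N : ℕ, ⋃ _ : n ≤ N, E N) := by
      intro n
      have h2 := hN (max n N₀) (le_max_right _ _)
      have h3 : {α : Fin k → ℝ | (∀ i, α i ∈ Set.Ioc (a i) (b i)) ∧ α ∈ E (max n N₀)} ⊆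
          Set.Icc a b ∩ ⋃ N : ℕ, ⋃ _ : n ≤ N, E N := by
        rintro α ⟨h4, h5⟩
        refine ⟨⟨fun i => (h4 i).1.le, fun i => (h4 i).2⟩, ?_⟩
        exact Set.mem_iUnion.2 ⟨_, Set.mem_iUnion.2 ⟨le_max_left _ _, h5⟩⟩
      rw [hvol, ← ENNReal.ofReal_mul hc.le]
      refine (ENNReal.ofReal_le_ofReal h2).trans ?_
      rw [ofReal_measureReal (hfin _ (h3.trans Set.inter_subset_left))]
      exact measure_mono h3
    have h5 : Set.Icc a b ∩ F = ⋂ n : ℕ, (Set.Icc a b ∩ ⋃ N : ℕ, ⋃ _ : n ≤ N, E N) := by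
      rw [← Set.inter_iInter]
    rw [h5]
    have h6 := tendsto_measure_iInter_atTop (μ := (volume : Measure (Fin k → ℝ)))
      (s := fun n : ℕ => Set.Icc a b ∩ ⋃ N : ℕ, ⋃ _ : n ≤ N, E N)
      (fun n => (measurableSet_Icc.inter (hG n)).nullMeasurableSet) (by
        intro n m hnm x hx
        refine ⟨hx.1, ?_⟩
        obtain ⟨N, hN'⟩ := Set.mem_iUnion.1 hx.2
        obtain ⟨h7, h8⟩ := Set.mem_iUnion.1 hN'
        exact Set.mem_iUnion.2 ⟨N, Set.mem_iUnion.2 ⟨hnm.trans h7, h8⟩⟩)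
      ⟨0, hfin _ Set.inter_subset_left⟩
    exact ge_of_tendsto' h6 h1
  have hd := Besicovitch.ae_tendsto_measure_inter_div (volume : Measure (Fin k → ℝ)) (U \ F)
  have hSm : MeasurableSet (U \ F) := hU.measurableSet.diff hFm
  rw [ae_restrict_iff' hSm] at hd
  filter_upwards [hd] with x hx hxU
  rw [hFiff]
  by_contra hxF
  have h1 := hx ⟨hxU, hxF⟩
  obtain ⟨ε, hε, hball⟩ := Metric.isOpen_iff.1 hU x hxU
  have hev : ∀ᶠ r in 𝓝[>] (0 : ℝ), volume ((U \ F) ∩ Metric.closedBall x r) /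
      volume (Metric.closedBall x r) ≤ 1 - ENNReal.ofReal c := by
    filter_upwards [Ioo_mem_nhdsGT hε] with r hr
    have e : Metric.closedBall x r = Set.Icc (fun i => x i - r) (fun i => x i + r) := by
      rw [closedBall_pi x hr.1.le, ← Set.pi_univ_Icc]
      congr 1
      funext i
      exact Real.closedBall_eq_Icc
    have hsub : Set.Icc (fun i => x i - r) (fun i => x i + r) ⊆ U := by
      rw [← e]
      exact (Metric.closedBall_subset_ball hr.2).trans hball
    have h2 := hbox _ _ (fun i => by linarith [hr.1]) hsub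
    rw [← e] at h2
    set B := Metric.closedBall x r with hB
    have hBfin : volume B ≠ ⊤ := (isCompact_closedBall x r).measure_lt_top.ne
    have h3 : volume (B ∩ F) + volume (B \ F) = volume B := measure_inter_add_sdiff B hFm
    have h4 : volume (B \ F) = volume B - volume (B ∩ F) := by
      refine ENNReal.eq_sub_of_add_eq' hBfin ?_
      rw [add_comm]
      exact h3
    have h5 : volume ((U \ F) ∩ B) ≤ (1 - ENNReal.ofReal c) * volume B := by
      calc volume ((U \ F) ∩ B) ≤ volume (B \ F) :=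
            measure_mono fun y hy => ⟨hy.2, hy.1.2⟩
        _ = volume B - volume (B ∩ F) := h4
        _ ≤ volume B - ENNReal.ofReal c * volume B := tsub_le_tsub_left h2 _
        _ = (1 - ENNReal.ofReal c) * volume B := by
          rw [ENNReal.sub_mul fun _ _ => hBfin, one_mul]
    exact ENNReal.div_le_of_le_mul h5
  have h2 : (1 : ENNReal) ≤ 1 - ENNReal.ofReal c := le_of_tendsto h1 hev
  have h3 : 1 - ENNReal.ofReal c < (1 : ENNReal) :=
    ENNReal.sub_lt_self ENNReal.one_ne_top one_ne_zero (ENNReal.ofReal_pos.2 hc).ne'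
  exact absurd h2 (not_le.2 h3)

end Pool.Agent.L7h56.ME
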